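import Mathlib
import Pool.Agent.Helper64.Rho.Defs
import Pool.Agent.SNV.Ex
import Pool.Agent.SNV.Pre
import Pool.Agent.SZD.All
import Pool.Agent.SNR.WIN3

/-!
# MP_ec93d3_co: the least number of subset sums, all finite abelian groups

`result`: the exact value of `rho G m` for every finite abelian group `G` and every `m`.
-/

set_option autoImplicit false

namespace Pool.Agent.Results.MP_ec93d3_co.AllRanks

open Pool.Agent.Helper64.Rho

/-- `c h t = 1 + ∑_{i = 1}^t ⌈i / (2 h)⌉` (here `⌈i / (2 h)⌉` is written as `(i - 1) / (2 h) + 1`). -/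
def c (h t : ℕ) : ℕ := 1 + ∑ i ∈ Finset.range t, (i / (2 * h) + 1)

/-- The least number of generators of `G`. -/
noncomputable def gens (G : Type) [AddCommGroup G] [Finite G] : ℕ := AddGroup.rank G

/-- The value of a subgroup `H` of order `h`, `r` the least number of generators of `G / H`:
`h * 2 ^ (r - 1) * c h (max 1 (m + 2 - h - r))`. -/
noncomputable def value {G : Type} [AddCommGroup G] [Finite G] (m : ℕ) (H : AddSubgroup G) : ℕ :=
  Nat.card H * 2 ^ (gens (G ⧸ H) - 1) * c (Nat.card H) (max 1 (m + 2 - Nat.card H - gens (G ⧸ H)))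

/-- The six sporadic groups `H`: they have a generating set of `t` nonzero elements with `w = |H| - 1` subset
sums. -/
def Sporadic (H : Type) [AddCommGroup H] (t w : ℕ) : Prop :=
  (Nonempty (H ≃+ ZMod 2 × ZMod 4) ∧ t = 4 ∧ w = 7) ∨
  (Nonempty (H ≃+ ZMod 3 × ZMod 3) ∧ t = 4 ∧ w = 8) ∨
  (Nonempty (H ≃+ ZMod 4 × ZMod 4) ∧ t = 6 ∧ w = 15) ∨
  (Nonempty (H ≃+ ZMod 2 × ZMod 2 × ZMod 4) ∧ t = 6 ∧ w = 15) ∨
  (Nonempty (H ≃+ ZMod 3 × ZMod 6) ∧ t = 7 ∧ w = 17) ∨
  (Nonempty (H ≃+ ZMod 4 × ZMod 8) ∧ t = 10 ∧ w = 31)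

/-- The exceptional values. Let `r` be the least number of generators of `G`. They are `9 * 2 ^ (r - 2)` for
`m = r + 2` if `r ≥ 2`, `19 * 2 ^ (r - 2)` for `m = r + 4` if `r ≥ 2`, `27 * 2 ^ (r - 3)` for `m = r + 3` if
`r ≥ 3`, and `w * 2 ^ j` for `m = t + j` if `G` has a subgroup `H` which is one of the six sporadic groups (with
`t` and `w`) and `j` is the least number of generators of `G / H`. -/
def Exceptional (G : Type) [AddCommGroup G] [Finite G] (m v : ℕ) : Prop :=
  (2 ≤ gens G ∧ m = gens G + 2 ∧ v = 9 * 2 ^ (gens G - 2)) ∨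
  (2 ≤ gens G ∧ m = gens G + 4 ∧ v = 19 * 2 ^ (gens G - 2)) ∨
  (3 ≤ gens G ∧ m = gens G + 3 ∧ v = 27 * 2 ^ (gens G - 3)) ∨
  (∃ H : AddSubgroup G, ∃ t w : ℕ, Sporadic H t w ∧ m = t + gens (G ⧸ H) ∧ v = w * 2 ^ gens (G ⧸ H))

/-- The least of `|G|`, the values of the subgroups `H ≠ G` and the exceptional values. -/
noncomputable def best (G : Type) [AddCommGroup G] [Finite G] (m : ℕ) : ℕ :=
  sInf ({Nat.card G} ∪ {v | ∃ H : AddSubgroup G, H ≠ ⊤ ∧ v = value m H} ∪ {v | Exceptional G m v})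

/-- For every finite abelian group `G` and every `m`: there is a generating set of size `m` that avoids `0` exactly
if `m` is at least the least number of generators of `G` and less than `|G|`, and then the least number of subset
sums of such a set is `best G m`. -/
theorem result : ∀ (G : Type) [AddCommGroup G] [Finite G] (m : ℕ),
    ((sizes G m).Nonempty ↔ gens G ≤ m ∧ m < Nat.card G) ∧ ((sizes G m).Nonempty → rho G m = best G m) := by
  intro G _ _ m
  obtain ⟨h1, h2⟩ := Pool.Agent.SNV.final_of Pool.Agent.SZD.all_ND2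
    (Pool.Agent.SNR.NDw_of Pool.Agent.SZD.all_ND2) G m
  have h3 : Pool.Agent.SNU.rk G = gens G := Pool.Agent.SNV.rk_eq G
  have h4 : ∀ v : ℕ, Pool.Agent.SNU.Exc G m v ↔ Exceptional G m v := by
    intro v
    unfold Pool.Agent.SNU.Exc Exceptional
    rw [h3]
    rfl
  have h5 : Pool.Agent.SNU.upx G m = best G m := by
    unfold Pool.Agent.SNU.upx best
    have h6 : {v | Pool.Agent.SNU.Exc G m v} = {v | Exceptional G m v} := Set.ext h4
    rw [h6]
    rfl
  rw [h3] at h1
  exact ⟨h1, fun h6 => (h2 h6).trans h5⟩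

end Pool.Agent.Results.MP_ec93d3_co.AllRanks
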